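import Pool.Agent.V8H74.LR.Main

/-!
# Locally residually finite varieties of associative rings

A set `S` of identities (elements of the free associative ring without unit on countably many
letters) defines a locally residually finite variety if and only if for every prime `p` some
identity in `S` has a coefficient of a letter which is not divisible by `p`, or letters `i`, `j`
and a multiset `μ` of letters such that the sum of the coefficients of the words
`i m j`, `m` a word with multiset `μ` of letters, is not divisible by `p`. Equivalently, the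
variety contains, for no prime `p`, the variety of all rings with `p x = 0` and
`x (y z - z y) u = 0`.
-/

set_option autoImplicit false

namespace Pool.Agent.Results.MP_8983b8_al.LRFVarieties

/-- The value at `x` of an element `f` of the free associative ring without unit: `f` is a finite
combination, with integer coefficients, of nonempty words in the letters `0, 1, 2, ...`. -/
noncomputable def value {R : Type} [NonUnitalRing R] (x : ℕ → R) (f : FreeSemigroup ℕ →₀ ℤ) : R :=
  f.sum fun w c => c • FreeSemigroup.lift x w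

/-- The ring `R` satisfies all identities in `S`. -/
def Satisfies (R : Type) [NonUnitalRing R] (S : Set (FreeSemigroup ℕ →₀ ℤ)) : Prop :=
  ∀ f ∈ S, ∀ x : ℕ → R, value x f = 0

/-- Every nonzero element has a nonzero image under a homomorphism onto a finite ring. -/
def ResiduallyFinite (R : Type) [NonUnitalRing R] : Prop :=
  ∀ r : R, r ≠ 0 → ∃ (T : Type) (_ : NonUnitalRing T) (φ : R →ₙ+* T),
    Finite T ∧ Function.Surjective φ ∧ φ r ≠ 0

/-- Every finitely generated ring that satisfies `S` is residually finite. -/
def LocallyResiduallyFinite (S : Set (FreeSemigroup ℕ →₀ ℤ)) : Prop :=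
  ∀ (R : Type) [NonUnitalRing R], (∃ G : Set R, G.Finite ∧ NonUnitalSubring.closure G = ⊤) →
    Satisfies R S → ResiduallyFinite R

open Classical in
/-- The sum of the coefficients in `f` of the words `i m j`, where `m` is a word (possibly empty)
whose multiset of letters is `μ`. -/
noncomputable def groupSum (f : FreeSemigroup ℕ →₀ ℤ) (i j : ℕ) (μ : Multiset ℕ) : ℤ :=
  ∑ w ∈ f.support.filter
    (fun w => w.head = i ∧ ∃ m : List ℕ, w.tail = m ++ [j] ∧ (m : Multiset ℕ) = μ), f w

theorem groupSum_eq (f : FreeSemigroup ℕ →₀ ℤ) (i j : ℕ) (μ : Multiset ℕ) :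
    groupSum f i j μ = Pool.Agent.V8H74.LR.grp f i j μ := by
  classical
  rw [groupSum, Pool.Agent.V8H74.LR.grp, Finsupp.sum, Finset.sum_filter]

/-- **Classification of the locally residually finite varieties of associative rings**, in terms
of the coefficients of the identities, and in terms of the varieties of rings with `p x = 0` and
`x (y z - z y) u = 0`. -/
theorem result (S : Set (FreeSemigroup ℕ →₀ ℤ)) :
    (LocallyResiduallyFinite S ↔ ∀ p : ℕ, p.Prime → ∃ f ∈ S,
      (∃ i, ¬ (p : ℤ) ∣ f (FreeSemigroup.of i)) ∨ ∃ i j μ, ¬ (p : ℤ) ∣ groupSum f i j μ) ∧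
    (LocallyResiduallyFinite S ↔ ∀ p : ℕ, p.Prime → ∃ (R : Type) (_ : NonUnitalRing R),
      (∀ x : R, p • x = 0) ∧ (∀ x y z u : R, x * (y * z - z * y) * u = 0) ∧
        ¬ Satisfies R S) := by
  have h1 : ∀ p : ℕ, (∃ f ∈ S, (∃ i, ¬ (p : ℤ) ∣ f (FreeSemigroup.of i)) ∨
      ∃ i j μ, ¬ (p : ℤ) ∣ groupSum f i j μ) ↔ Pool.Agent.V8H74.LR.CrP S p := by
    intro p
    simp only [groupSum_eq]
    exact Iff.rfl
  have h2 : LocallyResiduallyFinite S ↔ ∀ p : ℕ, p.Prime → ∃ f ∈ S,
      (∃ i, ¬ (p : ℤ) ∣ f (FreeSemigroup.of i)) ∨ ∃ i j μ, ¬ (p : ℤ) ∣ groupSum f i j μ := by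
    simp only [h1]
    constructor
    · intro h p hp
      by_contra hcon
      obtain ⟨R, iR, hR, hS, r, hr, hφ⟩ := Pool.Agent.V8H74.LR.ring_nec hp hcon
      obtain ⟨T, iT, φ, hT, _, h3⟩ := h R hR hS r hr
      exact h3 (hφ T φ)
    · intro h R _ hR hS r hr
      exact Pool.Agent.V8H74.LR.ring_suff h R hR hS hr
  refine ⟨h2, h2.trans (forall_congr' fun p => forall_congr' fun hp => ?_)⟩
  rw [h1]
  constructor
  · exact Pool.Agent.V8H74.LR.ring_sem hp
  · rintro ⟨R, _, hpR, hR, hS⟩
    by_contra hcon
    exact hS (Pool.Agent.V8H74.LR.sat_of_not hcon R hpR hR)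

end Pool.Agent.Results.MP_8983b8_al.LRFVarieties
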